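import Pool.Agent.N90.HG.Direct

/-!
# Hodge classes on products of abelian varieties of CM type with given multiplicities: short relations
# give Hodge classes that are not generated in degree two
-/

set_option autoImplicit false
set_option linter.unusedSectionVars false
set_option linter.unusedVariables false

namespace Pool.Agent.N90.HG

open NumberField Module Equiv Pool.Agent.H204R3.CM Pool.Agent.W546.GHC Pool.Agent.H977R3.CM

noncomputable section

variable {ι J : Type*} [Fintype ι] [Fintype J] {E : ι → Type*} [∀ i, Field (E i)]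
  [∀ i, NumberField (E i)] [∀ i, IsCMField (E i)]
  {L : Type*} [Field L] [NumberField L] [IsGalois ℚ L]
  {Φ : ∀ i, Set (E i →+* ℂ)} (hΦ : ∀ i, IsCMType (Φ i)) (t : J → ι) (j : L →+* ℂ)

include hΦ in
/-- the forms given by a balanced word are Hodge classes -/
theorem isHodge_trL {m : ℕ} (I : Fin (2 * m) → XX E t L)
    (hpos : ∀ g : L ≃ₐ[ℚ] L, pos t Φ (wd t j g I) = m) (b : L) :
    IsHodge (per Φ t) (trL t I b) := by
  classical
  set F : Tan Φ t [⋀^Fin (2 * m)]→ₗ[ℝ] ℂ :=
    ∑ g : L ≃ₐ[ℚ] L, j (g b) • altT t hΦ (wd t j g I) with hF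
  refine ⟨Complex.reLm.compMultilinearMap F.toMultilinearMap, fun v => ?_, fun z hz u => ?_⟩
  · have h1 := ext_trL t hΦ j I b v
    change Complex.re (F fun l => per Φ t (v l)) = _
    rw [hF, h1]
    exact Complex.ratCast_re _
  · change Complex.re (F fun l => z • u l) = Complex.re (F u)
    congr 1
    rw [hF, sum_app, sum_app]
    refine Finset.sum_congr rfl fun g _ => ?_
    rw [AlternatingMap.smul_apply, AlternatingMap.smul_apply]
    congr 1
    have h2 := altT_mem t hΦ (wd t j g I) z u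
    rw [h2, hpos g]
    have h3 : 2 * m - m = m := by omega
    have h4 : z * starRingEnd ℂ z = 1 := by
      rw [Complex.mul_conj, Complex.normSq_eq_norm_sq, hz]
      norm_num
    rw [h3, ← mul_pow, h4, one_pow, one_mul]

include hΦ in
/-- products of Hodge classes of degree two do not contain words without conjugate letters -/
theorem wedge_mem_offSpan (hsep : Separated Φ)
    (h : ∀ i, ∀ ψ : E i →+* ℂ, ∃ φ : E i →+* L, j.comp φ = ψ) {m : ℕ} (hm : 0 < m)
    (e : Fin m × Fin 2 ≃ Fin (2 * m)) (I₀ : Fin (2 * m) → XX E t L)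
    (hnp : ∀ l l', (⟨t (I₀ l').1, (I₀ l').2⟩ : Σ i, (E i →+* L)) ≠
      ⟨t (I₀ l).1, cbar (I₀ l).2⟩)
    (B : Fin m → (∀ a, E (t a)) [⋀^Fin 2]→ₗ[ℚ] ℚ) (hB : ∀ s, IsHodge (per Φ t) (B s)) :
    (fun v : Fin (2 * m) → ∀ a, E (t a) =>
      ((∏ s, B s ![v (e (s, 0)), v (e (s, 1))] : ℚ) : L)) ∈ offSpan t I₀ := by
  classical
  have h0 : ∀ s, ∃ c : (Fin 2 → XX E t L) → L, ∀ v : Fin 2 → ∀ j, E (t j),
      ((B s v : ℚ) : L) = ∑ I : Fin 2 → XX E t L, c I * ∏ l, chi E t L (v l) (I l) :=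
    fun s => form_coeff t j h (B s).toMultilinearMap
  choose c hc using h0
  have h1 : (fun v : Fin (2 * m) → ∀ a, E (t a) =>
      ((∏ s, B s ![v (e (s, 0)), v (e (s, 1))] : ℚ) : L)) =
      ∑ x : Fin m → (Fin 2 → XX E t L), (∏ s, c s (x s)) •
        mL t (fun k => x (e.symm k).1 (e.symm k).2) := by
    funext v
    rw [Finset.sum_apply, Rat.cast_prod]
    rw [Finset.prod_congr rfl (fun s _ => hc s ![v (e (s, 0)), v (e (s, 1))]),
      Finset.prod_univ_sum, Fintype.piFinset_univ]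
    refine Finset.sum_congr rfl fun x _ => ?_
    rw [Finset.prod_mul_distrib, Pi.smul_apply, smul_eq_mul]
    congr 1
    unfold mL
    rw [← Equiv.prod_comp e, Fintype.prod_prod_type]
    refine Finset.prod_congr rfl fun s _ => ?_
    simp only [Fin.prod_univ_two, Equiv.symm_apply_apply]
    rfl
  rw [h1]
  refine Submodule.sum_mem _ fun x _ => ?_
  by_cases hx : c ⟨0, hm⟩ (x ⟨0, hm⟩) = 0
  · rw [Finset.prod_eq_zero (Finset.mem_univ (⟨0, hm⟩ : Fin m)) hx, zero_smul]
    exact Submodule.zero_mem _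
  · refine Submodule.smul_mem _ _ (mem_offSpan t fun h2 => ?_)
    have h3 := pair_conj t hΦ j hsep h (B ⟨0, hm⟩) (hB _) (c ⟨0, hm⟩) (hc _) (x ⟨0, hm⟩) hx
    apply hnp (e (⟨0, hm⟩, 0)) (e (⟨0, hm⟩, 1))
    rw [← h2]
    have h4 : ∀ (p1 p0 : Fin m × Fin 2), p1 = (⟨0, hm⟩, 1) → p0 = (⟨0, hm⟩, 0) →
        (⟨t (x p1.1 p1.2).1, (x p1.1 p1.2).2⟩ : Σ i, (E i →+* L)) =
          ⟨t (x p0.1 p0.2).1, cbar (x p0.1 p0.2).2⟩ := by
      rintro _ _ rfl rfl
      exact h3
    exact h4 _ _ (Equiv.symm_apply_apply _ _) (Equiv.symm_apply_apply _ _)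

include hΦ in
theorem span_wedge_mem_offSpan (hsep : Separated Φ)
    (h : ∀ i, ∀ ψ : E i →+* ℂ, ∃ φ : E i →+* L, j.comp φ = ψ) {m : ℕ} (hm : 0 < m)
    (e : Fin m × Fin 2 ≃ Fin (2 * m)) (I₀ : Fin (2 * m) → XX E t L)
    (hnp : ∀ l l', (⟨t (I₀ l').1, (I₀ l').2⟩ : Σ i, (E i →+* L)) ≠
      ⟨t (I₀ l).1, cbar (I₀ l).2⟩)
    (f : (∀ a, E (t a)) [⋀^Fin m × Fin 2]→ₗ[ℚ] ℚ)
    (hf : f ∈ Submodule.span ℚ (wedgeSet (per Φ t) m)) :
    (fun v : Fin (2 * m) → ∀ a, E (t a) => ((f (fun k => v (e k)) : ℚ) : L)) ∈ offSpan t I₀ := by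
  induction hf using Submodule.span_induction with
  | mem f hf =>
    obtain ⟨B, hB, hg⟩ := hf
    have h1 : (fun v : Fin (2 * m) → ∀ a, E (t a) => ((f (fun k => v (e k)) : ℚ) : L)) =
        ∑ σ : Perm (Fin m × Fin 2), ((Perm.sign σ : ℤ) : L) •
        (fun v : Fin (2 * m) → ∀ a, E (t a) =>
          ((∏ s, B s ![v ((σ.trans e) (s, 0)), v ((σ.trans e) (s, 1))] : ℚ) : L)) := by
      funext v
      rw [hg, Finset.sum_apply, Rat.cast_sum]
      refine Finset.sum_congr rfl fun σ _ => ?_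
      rw [Pi.smul_apply, smul_eq_mul, Rat.cast_mul, Rat.cast_intCast]
      rfl
    rw [h1]
    exact Submodule.sum_mem _ fun σ _ => Submodule.smul_mem _ _
      (wedge_mem_offSpan hΦ t j hsep h hm (σ.trans e) I₀ hnp B hB)
  | zero =>
    have h1 : (fun v : Fin (2 * m) → ∀ a, E (t a) =>
        (((0 : (∀ a, E (t a)) [⋀^Fin m × Fin 2]→ₗ[ℚ] ℚ) (fun k => v (e k)) : ℚ) : L)) = 0 := by
      funext v
      rw [AlternatingMap.zero_apply, Rat.cast_zero]
      rfl
    rw [h1]
    exact Submodule.zero_mem _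
  | add x y _ _ hx hy =>
    have h1 : (fun v : Fin (2 * m) → ∀ a, E (t a) => (((x + y) (fun k => v (e k)) : ℚ) : L)) =
        (fun v => ((x (fun k => v (e k)) : ℚ) : L)) +
          (fun v => ((y (fun k => v (e k)) : ℚ) : L)) := by
      funext v
      rw [AlternatingMap.add_apply, Rat.cast_add]
      rfl
    rw [h1]
    exact Submodule.add_mem _ hx hy
  | smul c x _ hx =>
    have h1 : (fun v : Fin (2 * m) → ∀ a, E (t a) => (((c • x) (fun k => v (e k)) : ℚ) : L)) =
        (c : L) • (fun v => ((x (fun k => v (e k)) : ℚ) : L)) := by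
      funext v
      rw [AlternatingMap.smul_apply, smul_eq_mul, Rat.cast_mul]
      rfl
    rw [h1]
    exact Submodule.smul_mem _ _ hx

include hΦ in
/-- A balanced word without conjugate letters gives an exceptional class. -/
theorem not_generated_of_word (hsep : Separated Φ)
    (h : ∀ i, ∀ ψ : E i →+* ℂ, ∃ φ : E i →+* L, j.comp φ = ψ) {m : ℕ} (hm : 0 < m)
    (I₀ : Fin (2 * m) → XX E t L) (hinj : Function.Injective I₀)
    (hnp : ∀ l l', (⟨t (I₀ l').1, (I₀ l').2⟩ : Σ i, (E i →+* L)) ≠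
      ⟨t (I₀ l).1, cbar (I₀ l).2⟩)
    (hpos : ∀ g : L ≃ₐ[ℚ] L, pos t Φ (wd t j g I₀) = m) : ¬ HodgeGenerated (per Φ t) := by
  classical
  intro hgen
  let e : Fin m × Fin 2 ≃ Fin (2 * m) := finProdFinEquiv.trans (finCongr (mul_comm m 2))
  apply altL_not_mem t hΦ j h I₀ hinj
  obtain ⟨b, b', hb⟩ := dual_expand (M := L) (LinearMap.id (R := ℚ) (M := L))
  have h1 : (fun v => altL t I₀ v) = ∑ k, (b' k) • (fun v => ((trL t I₀ (b k) v : ℚ) : L)) := by
    funext v
    rw [Finset.sum_apply]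
    refine (hb (altL t I₀ v)).trans (Finset.sum_congr rfl fun k _ => ?_)
    rw [Pi.smul_apply, smul_eq_mul, Rat.smul_def, mul_comm, trL_apply]
    rfl
  rw [h1]
  refine Submodule.sum_mem _ fun k _ => Submodule.smul_mem _ _ ?_
  have h2 := isHodge_trL hΦ t j I₀ hpos (b k)
  -- reindex
  set f := (trL t I₀ (b k)).domDomCongr e.symm with hf
  have h3 : IsHodge (per Φ t) f := by
    obtain ⟨ψ, h4, h5⟩ := h2
    refine ⟨ψ.domDomCongr e.symm, fun v => ?_, fun z hz u => ?_⟩
    · change ψ (fun l => per Φ t (v (e.symm l))) = ((trL t I₀ (b k)) (fun l => v (e.symm l)) : ℚ)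
      exact h4 _
    · change ψ (fun l => z • u (e.symm l)) = ψ (fun l => u (e.symm l))
      exact h5 z hz _
  have h4 := span_wedge_mem_offSpan hΦ t j hsep h hm e I₀ hnp f (hgen m f h3)
  have h5 : (fun v : Fin (2 * m) → ∀ a, E (t a) => ((f (fun k => v (e k)) : ℚ) : L)) =
      (fun v => ((trL t I₀ (b k) v : ℚ) : L)) := by
    funext v
    have h6 : f (fun k => v (e k)) = trL t I₀ (b k) v := by
      change (trL t I₀ (b k)) (fun l => v (e (e.symm l))) = _
      simp only [Equiv.apply_symm_apply]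
    rw [h6]
  rw [h5] at h4
  exact h4

open Classical in
include hΦ in
/-- **Short relations give exceptional classes.** -/
theorem not_generated_of_rel (hsep : Separated Φ)
    (h : ∀ i, ∀ ψ : E i →+* ℂ, ∃ φ : E i →+* L, j.comp φ = ψ)
    (c : ∀ i, (E i →+* L) → ℤ) (hc : IsRel Φ j c) (hle : ∀ i φ, |c i φ| ≤ mult t i)
    (hne : ∃ i φ, c i φ ≠ 0) : ¬ HodgeGenerated (per Φ t) := by
  classical
  -- the ranks
  have hrk : ∀ i, Nonempty ({a : J // t a = i} ≃ Fin (mult t i)) := by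
    intro i
    refine ⟨Fintype.equivFinOfCardEq ?_⟩
    rw [Fintype.card_subtype, mult]
  let rk : ∀ i, {a : J // t a = i} ≃ Fin (mult t i) := fun i => (hrk i).some
  let rank : J → ℤ := fun a => ((rk (t a) ⟨a, rfl⟩ : Fin _) : ℕ)
  -- the letters
  let S : Finset (XX E t L) := Finset.univ.filter (fun x => rank x.1 < c (t x.1) x.2)
  have hS : ∀ x, x ∈ S ↔ rank x.1 < c (t x.1) x.2 := fun x => by
    simp only [S, Finset.mem_filter, Finset.mem_univ, true_and]
  -- sums over the letters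
  have hsum : ∀ u : (Σ i, (E i →+* L)) → ℤ,
      ∑ x ∈ S, u ⟨t x.1, x.2⟩ = ∑ y : (Σ i, (E i →+* L)), max (c y.1 y.2) 0 * u y := by
    intro u
    have h1 : ∑ x ∈ S, u ⟨t x.1, x.2⟩ = ∑ x : XX E t L, if rank x.1 < c (t x.1) x.2 then
        u ⟨t x.1, x.2⟩ else 0 := by
      rw [Finset.sum_filter]
    rw [h1, Fintype.sum_sigma, Fintype.sum_sigma, ← Finset.sum_fiberwise Finset.univ t]
    refine Finset.sum_congr rfl fun i _ => ?_
    have h2 : ∀ a ∈ Finset.univ.filter (fun a => t a = i),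
        (∑ φ : E (t a) →+* L, if rank a < c (t a) φ then u ⟨t a, φ⟩ else 0) =
        ∑ φ : E i →+* L, if rank a < c i φ then u ⟨i, φ⟩ else 0 := by
      intro a ha
      obtain rfl := (Finset.mem_filter.1 ha).2
      rfl
    rw [Finset.sum_congr rfl h2, Finset.sum_comm]
    refine Finset.sum_congr rfl fun φ _ => ?_
    rw [← Finset.sum_filter, Finset.sum_const, nsmul_eq_mul]
    congr 1
    -- count
    have h3 : ((Finset.univ.filter (fun a => t a = i)).filter (fun a => rank a < c i φ)).card =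
        (Finset.univ.filter (fun k : Fin (mult t i) => ((k : ℕ) : ℤ) < c i φ)).card := by
      refine Finset.card_bij' (fun a ha => rk i ⟨a, (Finset.mem_filter.1
        (Finset.mem_filter.1 ha).1).2⟩) (fun k _ => ((rk i).symm k).1) ?_ ?_ ?_ ?_
      · intro a ha
        have h4 := (Finset.mem_filter.1 (Finset.mem_filter.1 ha).1).2
        have h5 := (Finset.mem_filter.1 ha).2
        subst h4
        exact Finset.mem_filter.2 ⟨Finset.mem_univ _, h5⟩
      · intro k hk
        have h4 := ((rk i).symm k).2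
        have h5 := (Finset.mem_filter.1 hk).2
        refine Finset.mem_filter.2 ⟨Finset.mem_filter.2 ⟨Finset.mem_univ _, h4⟩, ?_⟩
        have h6 : rank ((rk i).symm k).1 = ((k : ℕ) : ℤ) := by
          have h7 : ∀ (i' : ι) (hi' : t ((rk i).symm k).1 = i'),
              (((rk i' ⟨((rk i).symm k).1, hi'⟩ : Fin _) : ℕ) : ℤ) =
                rank ((rk i).symm k).1 := by
            intro i' hi'
            subst hi'
            rfl
          rw [← h7 i h4]
          have h8 : (⟨((rk i).symm k).1, h4⟩ : {a : J // t a = i}) = (rk i).symm k := rfl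
          rw [h8, Equiv.apply_symm_apply]
        rw [h6]
        exact h5
      · intro a ha
        simp only [Equiv.symm_apply_apply]
      · intro k hk
        have h8 : (⟨((rk i).symm k).1, ((rk i).symm k).2⟩ : {a : J // t a = i}) =
          (rk i).symm k := rfl
        simp only [h8, Equiv.apply_symm_apply]
    rw [h3]
    have h4 := hle i φ
    have h5 : (Finset.univ.filter (fun k : Fin (mult t i) => ((k : ℕ) : ℤ) < c i φ)).card =
        (c i φ).toNat := by
      have h6 : (c i φ).toNat ≤ mult t i := by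
        have := (abs_le.1 h4).2
        omega
      have h7 : (Finset.univ.filter (fun k : Fin (mult t i) => ((k : ℕ) : ℤ) < c i φ)) =
          (Finset.univ.filter (fun k : Fin (mult t i) => (k : ℕ) < (c i φ).toNat)) := by
        ext k
        simp only [Finset.mem_filter, Finset.mem_univ, true_and]
        omega
      rw [h7, Fin.card_filter_val_lt]
      omega
    rw [h5, Int.toNat_eq_max]
  -- balancedness
  have hbal : ∀ σ : L ≃ₐ[ℚ] L, ∑ x ∈ S, (if j.comp (σ • x.2) ∈ Φ (t x.1) then (1 : ℤ) else -1) =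
      0 := by
    intro σ
    let u : (Σ i, (E i →+* L)) → ℤ := fun y => if j.comp (σ • y.2) ∈ Φ y.1 then 1 else -1
    let inv : (Σ i, (E i →+* L)) → Σ i, (E i →+* L) := fun y => ⟨y.1, cbar y.2⟩
    have hinv : ∀ y, inv (inv y) = y := by
      rintro ⟨i, φ⟩
      simp only [inv, cbar_cbar]
    have hu : ∀ y, u (inv y) = -u y := by
      rintro ⟨i, φ⟩
      have h3 : j.comp (σ • cbar φ) = ComplexEmbedding.conjugate (j.comp (σ • φ)) := by
        rw [← comp_cbar]
        rfl
      change (if j.comp (σ • cbar φ) ∈ Φ i then (1 : ℤ) else -1) =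
        -(if j.comp (σ • φ) ∈ Φ i then (1 : ℤ) else -1)
      rw [h3]
      by_cases h4 : j.comp (σ • φ) ∈ Φ i
      · rw [if_pos h4, if_neg ((hΦ i _).1 h4)]
      · rw [if_neg h4, if_pos (conj_mem hΦ h4), neg_neg]
    refine (hsum u).trans ?_
    have h1 : ∑ y, c y.1 y.2 * u y = 0 := by
      have h2 := hc.2 σ
      rw [Fintype.sum_sigma]
      exact h2
    have h2 : ∀ y : (Σ i, (E i →+* L)), c y.1 y.2 * u y =
        max (c y.1 y.2) 0 * u y + max (c (inv y).1 (inv y).2) 0 * u (inv y) := by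
      intro y
      have h3 : c (inv y).1 (inv y).2 = -c y.1 y.2 := hc.1 y.1 y.2
      rw [h3, hu]
      rcases le_total 0 (c y.1 y.2) with h4 | h4
      · rw [max_eq_left h4, max_eq_right (by linarith)]
        ring
      · rw [max_eq_right h4, max_eq_left (by linarith)]
        ring
    rw [Finset.sum_congr rfl (fun y _ => h2 y), Finset.sum_add_distrib] at h1
    have h3 : ∑ y : (Σ i, (E i →+* L)), max (c (inv y).1 (inv y).2) 0 * u (inv y) =
        ∑ y : (Σ i, (E i →+* L)), max (c y.1 y.2) 0 * u y :=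
      Finset.sum_nbij' inv inv (fun _ _ => Finset.mem_univ _)
        (fun _ _ => Finset.mem_univ _) (fun y _ => hinv y) (fun y _ => hinv y) (fun y _ => rfl)
    rw [h3] at h1
    linarith
  -- the number of letters
  have hcardσ : ∀ σ : L ≃ₐ[ℚ] L, (S.card : ℤ) =
      2 * ((S.filter (fun x => j.comp (σ • x.2) ∈ Φ (t x.1))).card : ℤ) := by
    intro σ
    have h1 := hbal σ
    have h2 : ∀ x ∈ S, (if j.comp (σ • x.2) ∈ Φ (t x.1) then (1 : ℤ) else -1) =
        2 * (if j.comp (σ • x.2) ∈ Φ (t x.1) then (1 : ℤ) else 0) - 1 := by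
      intro x _
      split_ifs <;> norm_num
    rw [Finset.sum_congr rfl h2, Finset.sum_sub_distrib, ← Finset.mul_sum, Finset.sum_boole,
      Finset.sum_const, nsmul_eq_mul, mul_one] at h1
    linarith
  obtain ⟨m, hm⟩ : ∃ m, S.card = 2 * m := by
    refine ⟨(S.filter (fun x => j.comp ((1 : L ≃ₐ[ℚ] L) • x.2) ∈ Φ (t x.1))).card, ?_⟩
    exact_mod_cast hcardσ 1
  have hS0 : 0 < S.card := by
    obtain ⟨i, φ, hφ⟩ := hne
    have h1 : ∃ φ : E i →+* L, 0 < c i φ := by
      rcases lt_or_gt_of_ne hφ with h2 | h2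
      · exact ⟨cbar φ, by rw [hc.1 i φ]; linarith⟩
      · exact ⟨φ, h2⟩
    obtain ⟨φ, hφ⟩ := h1
    have h2 := hle i φ
    have h3 : 0 < mult t i := by
      have := (abs_le.1 h2).2
      omega
    let a := (rk i).symm ⟨0, h3⟩
    have ha : rank a.1 = 0 := by
      have h4 : ∀ (i' : ι) (hi' : t a.1 = i'),
          (((rk i' ⟨a.1, hi'⟩ : Fin _) : ℕ) : ℤ) = rank a.1 := by
        intro i' hi'
        subst hi'
        rfl
      rw [← h4 i a.2]
      have h5 : (⟨a.1, a.2⟩ : {a : J // t a = i}) = (rk i).symm ⟨0, h3⟩ := rfl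
      rw [h5, Equiv.apply_symm_apply]
      rfl
    have hx : ∃ x : XX E t L, x ∈ S := by
      obtain ⟨a1, ha2⟩ := a
      simp only at ha
      subst ha2
      exact ⟨⟨a1, φ⟩, (hS _).2 (by rw [ha]; exact hφ)⟩
    obtain ⟨x, hx⟩ := hx
    exact Finset.card_pos.2 ⟨x, hx⟩
  have hm0 : 0 < m := by omega
  -- the word
  let en : Fin (2 * m) ≃ S := (Fintype.equivFinOfCardEq (by rw [Fintype.card_coe, hm])).symm
  let I₀ : Fin (2 * m) → XX E t L := fun l => (en l).1
  refine not_generated_of_word hΦ t j hsep h hm0 I₀ ?_ ?_ ?_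
  · intro l l' hll
    exact en.injective (Subtype.ext hll)
  · intro l l' hll
    have h1 := (hS _).1 (en l).2
    have h2 := (hS _).1 (en l').2
    have hr1 : 0 ≤ rank (en l).1.1 := Nat.cast_nonneg _
    have hr2 : 0 ≤ rank (en l').1.1 := Nat.cast_nonneg _
    let cc : (Σ i, (E i →+* L)) → ℤ := fun y => c y.1 y.2
    have h3 : cc ⟨t (I₀ l').1, (I₀ l').2⟩ = cc ⟨t (I₀ l).1, cbar (I₀ l).2⟩ := congrArg cc hll
    have h4 : cc ⟨t (I₀ l).1, cbar (I₀ l).2⟩ = -c (t (I₀ l).1) (I₀ l).2 := hc.1 _ _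
    have h5 : c (t (I₀ l').1) (I₀ l').2 = -c (t (I₀ l).1) (I₀ l).2 := h3.trans h4
    have h1' : rank (en l).1.1 < c (t (I₀ l).1) (I₀ l).2 := h1
    have h2' : rank (en l').1.1 < c (t (I₀ l').1) (I₀ l').2 := h2
    linarith
  · intro g
    have h1 := hcardσ g
    rw [hm] at h1
    push_cast at h1
    have h2 : pos t Φ (wd t j g I₀) = (S.filter (fun x => j.comp (g • x.2) ∈ Φ (t x.1))).card := by
      unfold pos
      refine Finset.card_bij (fun l _ => (en l).1) ?_ ?_ ?_
      · intro l hl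
        have h3 := (Finset.mem_filter.1 hl).2
        exact Finset.mem_filter.2 ⟨(en l).2, h3⟩
      · intro l _ l' _ hll
        exact en.injective (Subtype.ext hll)
      · intro x hx
        have h3 := Finset.mem_filter.1 hx
        refine ⟨en.symm ⟨x, h3.1⟩, ?_, ?_⟩
        · refine Finset.mem_filter.2 ⟨Finset.mem_univ _, ?_⟩
          have h4 : I₀ (en.symm ⟨x, h3.1⟩) = x := by
            change (en (en.symm ⟨x, h3.1⟩)).1 = x
            rw [Equiv.apply_symm_apply]
          change j.comp (g • (I₀ (en.symm ⟨x, h3.1⟩)).2) ∈ Φ (t (I₀ (en.symm ⟨x, h3.1⟩)).1)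
          rw [h4]
          exact h3.2
        · rw [Equiv.apply_symm_apply]
    rw [h2]
    omega

end

end Pool.Agent.N90.HG
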