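import Pool.Agent.W546.GHC.Conv
import Pool.Agent.H977R3.CM.Defs

/-!
# Hodge classes on products of abelian varieties of CM type with given multiplicities: if there are
# no short relations, all Hodge classes are generated in degree two
-/

set_option autoImplicit false
set_option linter.unusedSectionVars false
set_option linter.unusedVariables false

namespace Pool.Agent.N90.HG

open NumberField Module Equiv Pool.Agent.H204R3.CM Pool.Agent.W546.GHC Pool.Agent.H977R3.CM

noncomputable section

variable {ι J : Type*} [Fintype ι] [Fintype J] {E : ι → Type*} [∀ i, Field (E i)]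
  [∀ i, NumberField (E i)] [∀ i, IsCMField (E i)]
  {L : Type*} [Field L] [NumberField L]
  {Φ : ∀ i, Set (E i →+* ℂ)} (hΦ : ∀ i, IsCMType (Φ i)) (t : J → ι) (j : L →+* ℂ)

open Classical in
/-- the number of factors of the type `i` -/
def mult (t : J → ι) (i : ι) : ℕ := (Finset.univ.filter (fun a => t a = i)).card

open Classical in
/-- A relation between the conjugates of the CM types: an antisymmetric integral vector orthogonal to
all conjugates. -/
def IsRel (Φ : ∀ i, Set (E i →+* ℂ)) (j : L →+* ℂ) (c : ∀ i, (E i →+* L) → ℤ) : Prop :=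
  (∀ i φ, c i (cbar φ) = -c i φ) ∧ ∀ σ : L ≃ₐ[ℚ] L,
    ∑ i, ∑ φ, c i φ * (if j.comp (σ • φ) ∈ Φ i then (1 : ℤ) else -1) = 0

include hΦ in
/-- Independence of the monomials, for arbitrary sets of variables. -/
theorem mono_indep {κ : Type*} [Fintype κ] [DecidableEq κ]
    (h : ∀ i, ∀ ψ : E i →+* ℂ, ∃ φ : E i →+* L, j.comp φ = ψ) (d : (κ → XX E t L) → L)
    (hd : ∀ v : κ → ∀ a, E (t a), ∑ I, d I * ∏ l, chi E t L (v l) (I l) = 0)
    (I : κ → XX E t L) : d I = 0 := by
  classical
  let e := Fintype.equivFin κ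
  have h1 := mL_indep (i := Fintype.card κ) t hΦ j h
  rw [Fintype.linearIndependent_iff] at h1
  have h2 := h1 (fun I' => d (fun l => I' (e l))) (by
    funext v
    rw [Finset.sum_apply]
    have h3 := hd (fun l => v (e l))
    rw [Pi.zero_apply, ← h3]
    refine Fintype.sum_equiv (Equiv.arrowCongr e.symm (Equiv.refl (XX E t L))) _ _ fun I' => ?_
    rw [Pi.smul_apply, smul_eq_mul]
    congr 1
    unfold mL
    exact (Equiv.prod_comp e (fun k => chi E t L (v k) (I' k))).symm)
  have h3 := h2 (fun k => I (e.symm k))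
  simpa using h3

include hΦ in
/-- The words of an alternating form are injective. -/
theorem inj_of_coeff {κ : Type*} [Fintype κ] [DecidableEq κ]
    (h : ∀ i, ∀ ψ : E i →+* ℂ, ∃ φ : E i →+* L, j.comp φ = ψ)
    (f : (∀ a, E (t a)) [⋀^κ]→ₗ[ℚ] ℚ)
    (c : (κ → XX E t L) → L) (hc : ∀ v : κ → ∀ a, E (t a),
      ((f v : ℚ) : L) = ∑ I : κ → XX E t L, c I * ∏ l, chi E t L (v l) (I l))
    (I : κ → XX E t L) (hI : c I ≠ 0) : Function.Injective I := by
  classical
  intro k l hkl
  by_contra hne
  apply hI
  have h1 : ∀ v : κ → ∀ a, E (t a), ∑ I : κ → XX E t L, (c I + c (fun l' => I (swap k l l'))) *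
      ∏ l', chi E t L (v l') (I l') = 0 := by
    intro v
    have h2 := f.map_swap v hne
    have h3 := hc (v ∘ swap k l)
    have h4 : ∑ I : κ → XX E t L, c I * ∏ l', chi E t L ((v ∘ swap k l) l') (I l') =
        ∑ I : κ → XX E t L, c (fun l' => I (swap k l l')) * ∏ l', chi E t L (v l') (I l') := by
      refine Fintype.sum_equiv (Equiv.arrowCongr (swap k l) (Equiv.refl (XX E t L))) _ _ fun I => ?_
      have h5 : (fun l' => (Equiv.arrowCongr (swap k l) (Equiv.refl (XX E t L))) I
          (swap k l l')) = I := by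
        funext l'
        change I ((swap k l).symm (swap k l l')) = I l'
        rw [symm_apply_apply]
      rw [h5]
      congr 1
      refine Fintype.prod_equiv (swap k l) _ _ fun l' => ?_
      change chi E t L (v (swap k l l')) (I l') =
        chi E t L (v (swap k l l')) (I ((swap k l).symm (swap k l l')))
      rw [symm_apply_apply]
    rw [h4, h2, Rat.cast_neg, hc v] at h3
    simp only [add_mul, Finset.sum_add_distrib]
    rw [← h3]
    ring
  have h2 := mono_indep hΦ t j h _ h1 I
  have h3 : (fun l' => I (swap k l l')) = I := by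
    funext l'
    by_cases h4 : l' = k
    · subst h4
      rw [swap_apply_left]
      exact hkl.symm
    · by_cases h5 : l' = l
      · subst h5
        rw [swap_apply_right]
        exact hkl
      · rw [swap_apply_of_ne_of_ne h4 h5]
  rw [h3] at h2
  have h4 : (2 : L) * c I = 0 := by rw [two_mul]; exact h2
  exact (mul_eq_zero.1 h4).resolve_left two_ne_zero

variable {m : ℕ}

include hΦ in
/-- **No short relations.** If all relations that are bounded by the multiplicities and by `m`
vanish, then all Hodge classes of degree `2 m` are linear combinations of wedge products of Hodge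
classes of degree two. -/
theorem hodge_of_bounded_deg (h : ∀ i, ∀ ψ : E i →+* ℂ, ∃ φ : E i →+* L, j.comp φ = ψ)
    (hnd : ∀ c : ∀ i, (E i →+* L) → ℤ, IsRel Φ j c → (∀ i φ, |c i φ| ≤ mult t i) →
      (∀ i φ, |c i φ| ≤ m) → ∀ i φ, c i φ = 0)
    (f : (∀ a, E (t a)) [⋀^Fin m × Fin 2]→ₗ[ℚ] ℚ) (hf : IsHodge (per Φ t) f) :
    f ∈ Submodule.span ℚ (wedgeSet (per Φ t) m) := by
  classical
  obtain ⟨c, hc⟩ := form_coeff t j h f.toMultilinearMap
  -- the balanced condition
  have hbal : ∀ I : Fin m × Fin 2 → XX E t L, c I ≠ 0 →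
      ∃ e : Perm (Fin m × Fin 2),
        ∀ s, (⟨t (I (e (s, 1))).1, (I (e (s, 1))).2⟩ : Σ i, (E i →+* L)) =
          ⟨t (I (e (s, 0))).1, cbar (I (e (s, 0))).2⟩ := by
    intro I hI
    have h1 := balanced_of_hodge t j hΦ h f hf c hc I hI
    have hinj := inj_of_coeff hΦ t j h f c hc I hI
    let a : Fin m × Fin 2 → Σ i, (E i →+* L) := fun l => ⟨t (I l).1, (I l).2⟩
    let inv : (Σ i, (E i →+* L)) → Σ i, (E i →+* L) := fun y => ⟨y.1, cbar y.2⟩
    have hinv : ∀ y, inv (inv y) = y := by
      rintro ⟨i, φ⟩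
      simp only [inv, cbar_cbar]
    have hne : ∀ y, inv y ≠ y := by
      rintro ⟨i, φ⟩ hy
      simp only [inv, Sigma.mk.injEq, heq_eq_eq, true_and] at hy
      exact cbar_ne φ hy
    let N : (Σ i, (E i →+* L)) → ℤ := fun y => ((Finset.univ.filter (fun l => a l = y)).card : ℤ)
    have hNle : ∀ y, N y ≤ mult t y.1 := by
      intro y
      simp only [N, mult]
      rw [Nat.cast_le]
      refine Finset.card_le_card_of_injOn (fun l => (I l).1) ?_ ?_
      · intro l hl
        rw [Finset.coe_filter, Set.mem_ofPred_eq] at hl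
        rw [Finset.coe_filter, Set.mem_ofPred_eq]
        exact ⟨Finset.mem_univ _, congrArg Sigma.fst hl.2⟩
      · intro l hl l' hl' hll
        rw [Finset.coe_filter, Set.mem_ofPred_eq] at hl hl'
        apply hinj
        have h2 : a l = a l' := hl.2.trans hl'.2.symm
        have h3 : (I l).1 = (I l').1 := hll
        simp only [a] at h2
        generalize hx : I l = x at h2 h3
        generalize hx' : I l' = x' at h2 h3
        obtain ⟨b, φ⟩ := x
        obtain ⟨b', φ'⟩ := x'
        simp only at h3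
        subst h3
        simp only [Sigma.mk.injEq, heq_eq_eq, true_and] at h2
        rw [h2]
    -- the numbers are bounded by the degree
    have hNm : ∀ y, N y ≤ m := by
      intro y
      have h2 := h1 1
      have h3 : (Finset.univ.filter fun l => j.comp ((1 : L ≃ₐ[ℚ] L) • (I l).2) ∈
          Φ (t (I l).1)).card = m ∧
          (Finset.univ.filter fun l => ¬ (j.comp ((1 : L ≃ₐ[ℚ] L) • (I l).2) ∈
            Φ (t (I l).1))).card = m := by
        rw [Finset.sum_ite, Finset.sum_const, Finset.sum_const, nsmul_eq_mul, nsmul_eq_mul] at h2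
        have h5 := Finset.card_filter_add_card_filter_not (s := Finset.univ)
          (fun l => j.comp ((1 : L ≃ₐ[ℚ] L) • (I l).2) ∈ Φ (t (I l).1))
        rw [Finset.card_univ, Fintype.card_prod, Fintype.card_fin, Fintype.card_fin] at h5
        constructor
        · omega
        · omega
      simp only [N]
      rw [Nat.cast_le]
      by_cases hy : j.comp ((1 : L ≃ₐ[ℚ] L) • y.2) ∈ Φ y.1
      · refine (Finset.card_le_card ?_).trans h3.1.le
        intro l hl
        refine Finset.mem_filter.2 ⟨Finset.mem_univ _, ?_⟩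
        have h4 := (Finset.mem_filter.1 hl).2
        rw [← h4] at hy
        exact hy
      · refine (Finset.card_le_card ?_).trans h3.2.le
        intro l hl
        refine Finset.mem_filter.2 ⟨Finset.mem_univ _, ?_⟩
        have h4 := (Finset.mem_filter.1 hl).2
        rw [← h4] at hy
        exact hy
    have hN0 : ∀ i φ, N ⟨i, φ⟩ - N (inv ⟨i, φ⟩) = 0 := by
      apply hnd (fun i φ => N ⟨i, φ⟩ - N (inv ⟨i, φ⟩))
      · refine ⟨?_, ?_⟩
        · intro i φ
          have h2 : (⟨i, cbar φ⟩ : Σ i, (E i →+* L)) = inv ⟨i, φ⟩ := rfl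
          change N ⟨i, cbar φ⟩ - N (inv ⟨i, cbar φ⟩) = -(N ⟨i, φ⟩ - N (inv ⟨i, φ⟩))
          rw [h2, hinv]
          ring
        · intro σ
          let u : (Σ i, (E i →+* L)) → ℤ := fun y => if j.comp (σ • y.2) ∈ Φ y.1 then 1 else -1
          have hu : ∀ y, u (inv y) = -u y := by
            rintro ⟨i, φ⟩
            have h3 : j.comp (σ • cbar φ) = ComplexEmbedding.conjugate (j.comp (σ • φ)) := by
              rw [← comp_cbar]
              rfl
            change (if j.comp (σ • cbar φ) ∈ Φ i then (1 : ℤ) else -1) =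
              -(if j.comp (σ • φ) ∈ Φ i then (1 : ℤ) else -1)
            rw [h3]
            by_cases h4 : j.comp (σ • φ) ∈ Φ i
            · rw [if_pos h4, if_neg ((hΦ i _).1 h4)]
            · rw [if_neg h4, if_pos (conj_mem hΦ h4), neg_neg]
          have h2 : ∑ y, N y * u y = 0 := by
            have h3 : ∀ y, N y * u y = ∑ l, if a l = y then u y else 0 := by
              intro y
              rw [← Finset.sum_filter, Finset.sum_const, nsmul_eq_mul]
            rw [Finset.sum_congr rfl (fun y _ => h3 y), Finset.sum_comm]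
            have h4 : ∀ l, ∑ y, (if a l = y then u y else 0) = u (a l) := by
              intro l
              rw [Finset.sum_ite_eq Finset.univ (a l), if_pos (Finset.mem_univ _)]
            rw [Finset.sum_congr rfl (fun l _ => h4 l)]
            exact h1 σ
          have h3 : ∑ y, N (inv y) * u y = 0 := by
            have h4 : ∑ y, N (inv y) * u y = ∑ y, -(N y * u y) := by
              refine Finset.sum_nbij' inv inv (fun _ _ => Finset.mem_univ _)
                (fun _ _ => Finset.mem_univ _) (fun y _ => hinv y) (fun y _ => hinv y)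
                (fun y _ => ?_)
              rw [hu]
              ring
            rw [h4, Finset.sum_neg_distrib, h2, neg_zero]
          have h4 : ∑ y, (N y - N (inv y)) * u y = 0 := by
            simp only [sub_mul, Finset.sum_sub_distrib, h2, h3, sub_zero]
          rw [Fintype.sum_sigma] at h4
          exact h4
      · intro i φ
        have h2 : 0 ≤ N ⟨i, φ⟩ := Nat.cast_nonneg _
        have h3 : 0 ≤ N (inv ⟨i, φ⟩) := Nat.cast_nonneg _
        have h4 := hNle ⟨i, φ⟩
        have h5 := hNle (inv ⟨i, φ⟩)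
        have h4' : N ⟨i, φ⟩ ≤ mult t i := h4
        have h5' : N (inv ⟨i, φ⟩) ≤ mult t i := h5
        change |N ⟨i, φ⟩ - N (inv ⟨i, φ⟩)| ≤ mult t i
        rw [abs_le]
        constructor
        · linarith
        · linarith
      · intro i φ
        have h2 : 0 ≤ N ⟨i, φ⟩ := Nat.cast_nonneg _
        have h3 : 0 ≤ N (inv ⟨i, φ⟩) := Nat.cast_nonneg _
        have h4 := hNm ⟨i, φ⟩
        have h5 := hNm (inv ⟨i, φ⟩)
        change |N ⟨i, φ⟩ - N (inv ⟨i, φ⟩)| ≤ m
        rw [abs_le]
        constructor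
        · linarith
        · linarith
    have hcount : ∀ y, (Finset.univ.filter (fun l => a l = y)).card =
        (Finset.univ.filter (fun l => a l = inv y)).card := by
      rintro ⟨i, φ⟩
      have h2 := hN0 i φ
      have h3 : N ⟨i, φ⟩ = N (inv ⟨i, φ⟩) := by linarith
      exact Int.ofNat.inj h3
    obtain ⟨e, he⟩ := exists_matching hinv hne a hcount m (by
      rw [Fintype.card_prod, Fintype.card_fin, Fintype.card_fin, mul_comm])
    exact ⟨e, he⟩
  -- membership in the span over `L`
  have hL : (fun v : Fin m × Fin 2 → ∀ a, E (t a) => ((f v : ℚ) : L)) ∈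
      Submodule.span L {g | ∃ s ∈ prodSet (per Φ t) m, g = fun x => ((s x : ℚ) : L)} := by
    have h1 : (fun v : Fin m × Fin 2 → ∀ a, E (t a) => ((f v : ℚ) : L)) =
        ∑ I : Fin m × Fin 2 → XX E t L, c I •
          (fun v : Fin m × Fin 2 → ∀ a, E (t a) => ∏ l, chi E t L (v l) (I l)) := by
      funext v
      rw [Finset.sum_apply]
      exact hc v
    rw [h1]
    refine Submodule.sum_mem _ fun I _ => ?_
    by_cases hI : c I = 0
    · rw [hI, zero_smul]
      exact Submodule.zero_mem _
    · obtain ⟨e, he⟩ := hbal I hI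
      exact Submodule.smul_mem _ _ (mono_mem hΦ t I e he)
  have hQ := span_descent _ _ hL
  -- alternation
  have hA : altFun (R := ℚ) (fun v => f v) ∈
      Submodule.map (altFun (R := ℚ)) (Submodule.span ℚ (prodSet (per Φ t) m)) :=
    Submodule.mem_map_of_mem hQ
  rw [Submodule.map_span, altFun_alt] at hA
  let K : ((∀ a, E (t a)) [⋀^Fin m × Fin 2]→ₗ[ℚ] ℚ) →ₗ[ℚ] ((Fin m × Fin 2 → ∀ a, E (t a)) → ℚ) :=
    { toFun := fun g v => g v
      map_add' := fun _ _ => rfl
      map_smul' := fun _ _ => rfl }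
  have hKinj : Function.Injective K := fun g g' h => AlternatingMap.ext fun v => congrFun h v
  set 𝒯 : Set ((∀ a, E (t a)) [⋀^Fin m × Fin 2]→ₗ[ℚ] ℚ) := wedgeSet (per Φ t) m with h𝒯
  have hsub : altFun (R := ℚ) '' prodSet (per Φ t) m ⊆ (Submodule.span ℚ 𝒯).map K := by
    rintro _ ⟨_, ⟨e, B, hB, rfl⟩, rfl⟩
    let A : Fin m → (∀ a, E (t a)) [⋀^Fin 2]→ₗ[ℚ] ℚ := fun s =>
      MultilinearMap.alternatization (B s)
    let g : (∀ a, E (t a)) [⋀^Fin m × Fin 2]→ₗ[ℚ] ℚ :=
      MultilinearMap.alternatization (prodMap (fun s => (A s).toMultilinearMap))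
    have hg : ∀ v, g v = ∑ σ : Perm (Fin m × Fin 2), ((Perm.sign σ : ℤ) : ℚ) *
        ∏ s, A s (fun ε => v (σ (s, ε))) := by
      intro v
      change MultilinearMap.alternatization _ v = _
      rw [MultilinearMap.alternatization_apply]
      refine Finset.sum_congr rfl fun σ _ => ?_
      rw [Units.smul_def, zsmul_eq_mul]
      rfl
    have hgT : g ∈ 𝒯 := by
      refine ⟨A, fun s => (hB s).alternatization, fun v => ?_⟩
      rw [hg v]
      refine Finset.sum_congr rfl fun σ _ => ?_
      congr 1
      refine Finset.prod_congr rfl fun s _ => ?_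
      congr 1
      funext ε
      fin_cases ε <;> rfl
    refine ⟨(((Perm.sign e : ℤ) : ℚ) / 2 ^ m) • g,
      Submodule.smul_mem _ _ (Submodule.subset_span hgT), ?_⟩
    rw [map_smul]
    funext v
    have h2 : (K g) v = (2 : ℚ) ^ m * ∑ σ : Perm (Fin m × Fin 2), ((Perm.sign σ : ℤ) : ℚ) *
        ∏ s, B s (fun ε => v (σ (s, ε))) := by
      change g v = _
      rw [hg v]
      exact alt_prod B v
    rw [Pi.smul_apply, h2, smul_eq_mul]
    have h3 : altFun (R := ℚ) (fun v => ∏ s, B s (fun ε => v (e (s, ε)))) v =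
        ((Perm.sign e : ℤ) : ℚ) * ∑ σ : Perm (Fin m × Fin 2), ((Perm.sign σ : ℤ) : ℚ) *
          ∏ s, B s (fun ε => v (σ (s, ε))) := by
      change ∑ σ : Perm (Fin m × Fin 2), ((Perm.sign σ : ℤ) : ℚ) *
        ∏ s, B s (fun ε => v (σ (e (s, ε)))) = _
      rw [Finset.mul_sum]
      refine Fintype.sum_equiv (Equiv.mulRight e) _ _ fun σ => ?_
      rw [Equiv.coe_mulRight, map_mul, Units.val_mul, Int.cast_mul]
      have h4 : ((Perm.sign e : ℤ) : ℚ) * ((Perm.sign e : ℤ) : ℚ) = 1 := by
        rw [← Int.cast_mul, ← Units.val_mul, Int.units_mul_self, Units.val_one, Int.cast_one]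
      have h5 : ∏ s, B s (fun ε => v (σ (e (s, ε)))) = ∏ s, B s (fun ε => v ((σ * e) (s, ε))) := rfl
      rw [h5]
      linear_combination -(((Perm.sign σ : ℤ) : ℚ) * ∏ s, B s (fun ε => v ((σ * e) (s, ε)))) * h4
    rw [h3]
    have h6 : (2 : ℚ) ^ m ≠ 0 := by positivity
    field_simp
  have h1 : ((Fintype.card (Fin m × Fin 2)).factorial : ℚ) • (fun v => f v) ∈
      (Submodule.span ℚ 𝒯).map K := Submodule.span_le.2 hsub hA
  have hne : ((Fintype.card (Fin m × Fin 2)).factorial : ℚ) ≠ 0 :=
    Nat.cast_ne_zero.2 (Nat.factorial_ne_zero _)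
  have h2 : (fun v => f v) ∈ (Submodule.span ℚ 𝒯).map K := by
    have h3 := Submodule.smul_mem _ (((Fintype.card (Fin m × Fin 2)).factorial : ℚ))⁻¹ h1
    rwa [smul_smul, inv_mul_cancel₀ hne, one_smul] at h3
  obtain ⟨f', hf', hff⟩ := h2
  have h3 : f' = f := hKinj hff
  rw [← h3]
  exact hf'

include hΦ in
/-- If all relations that are bounded by the multiplicities vanish, then all Hodge classes are
linear combinations of wedge products of Hodge classes of degree two. -/
theorem hodge_of_bounded (h : ∀ i, ∀ ψ : E i →+* ℂ, ∃ φ : E i →+* L, j.comp φ = ψ)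
    (hnd : ∀ c : ∀ i, (E i →+* L) → ℤ, IsRel Φ j c → (∀ i φ, |c i φ| ≤ mult t i) →
      ∀ i φ, c i φ = 0) : HodgeGenerated (per Φ t) :=
  fun _ f hf => hodge_of_bounded_deg hΦ t j h (fun c hc hle _ => hnd c hc hle) f hf

end

end Pool.Agent.N90.HG
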